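import Mathlib
import Pool.Agent.Lib_helper7.FPP.Defs
import Pool.Agent.Lib_helper7.FPP.UpperLim

/-!
# The order of growth of the first-passage time at the exponent `2d + 1`

In every dimension `d` and every direction `x`, the first-passage time `T(0, nx)` of the
long-range model with `r(k) = k^{-(2d+1)}` is of the order `n (log n)^{-(d+1)/2}`.
-/

namespace Pool.Agent.Results.MP_69292f_pr.OrderOfGrowth

open MeasureTheory ProbabilityTheory Filter Topology
open Pool.Agent.Lib_helper7.FPP

/-- Let `ξ_e` be independent exponential variables of mean one, indexed by the unordered pairs `e`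
of distinct points of `ℤ^d`, and let `T` be the first-passage time with the traversal times
`W_e = ξ_e ‖e‖₁^(2d+1)`. For every `x ≠ 0` there are constants `0 < c < C` such that the
probability of `c ≤ T(0, nx) / (n (log n)^{-(d+1)/2}) ≤ C` tends to one. -/
theorem result (d : ℕ) (hd : 1 ≤ d) {Ω : Type*} [MeasurableSpace Ω] (P : Measure Ω)
    [IsProbabilityMeasure P] (ξ : Sym2 (Fin d → ℤ) → Ω → ℝ) (h : IsExpFamily P ξ)
    (x : Fin d → ℤ) (hx : x ≠ 0) :
    ∃ c C : ℝ, 0 < c ∧ c < C ∧ Tendsto (fun n : ℕ => P {ω |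
      c ≤ T (fun e => ξ e ω) 0 (n • x) / (n * (Real.log n) ^ (-((d : ℝ) + 1) / 2)) ∧
      T (fun e => ξ e ω) 0 (n • x) / (n * (Real.log n) ^ (-((d : ℝ) + 1) / 2)) ≤ C})
      atTop (𝓝 1) :=
  order_of_growth hd h hx

end Pool.Agent.Results.MP_69292f_pr.OrderOfGrowth
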